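import Pool.Agent.H.MP_7fb950_al.Defs
import Pool.Agent.H.MP_96aaf1_al.A

set_option autoImplicit false

namespace Pool.Agent.H.MP_7fb950_al

open Pool.Agent.H.MP_96aaf1_al

section wd

variable {H : Type} [Group H] {S : Set H}

theorem wd_le {l : List H} (h : ∀ s ∈ l, s ∈ S) : wd S l.prod ≤ l.length :=
  Nat.sInf_le ⟨l, rfl, h, rfl⟩

theorem wd_spec (hS : ∀ g, ∃ l : List H, (∀ s ∈ l, s ∈ S) ∧ l.prod = g) (g : H) :
    ∃ l : List H, l.length = wd S g ∧ (∀ s ∈ l, s ∈ S) ∧ l.prod = g := by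
  obtain ⟨l, h⟩ := hS g
  exact Nat.sInf_mem (s := {n | ∃ l : List H, l.length = n ∧ (∀ s ∈ l, s ∈ S) ∧ l.prod = g})
    ⟨_, l, rfl, h⟩

theorem wd_mul (hS : ∀ g, ∃ l : List H, (∀ s ∈ l, s ∈ S) ∧ l.prod = g) (g h : H) :
    wd S (g * h) ≤ wd S g + wd S h := by
  obtain ⟨l, h1, h2, rfl⟩ := wd_spec hS g
  obtain ⟨m, h3, h4, rfl⟩ := wd_spec hS h
  rw [← h1, ← h3, ← List.prod_append, ← List.length_append]
  exact wd_le fun s hs => (List.mem_append.mp hs).elim (h2 s) (h4 s)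

theorem wd_one {s : H} (h : s ∈ S) : wd S s ≤ 1 := by simpa using wd_le (l := [s]) (by simpa)

theorem wd_pow (hS : ∀ g, ∃ l : List H, (∀ s ∈ l, s ∈ S) ∧ l.prod = g) (g : H) (n : ℕ) :
    wd S (g ^ n) ≤ n * wd S g := by
  induction n with
  | zero => simpa using wd_le (S := S) (l := []) (by simp)
  | succ n ih => rw [pow_succ, add_mul, one_mul]; exact (wd_mul hS _ _).trans (by omega)

theorem not_bdd {B : ℕ} (h : ∀ g, wd S g ≤ B) : ¬ QuasiLine S := by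
  rintro ⟨f, K, C, hK, hC, h1, h2⟩
  obtain ⟨x, hx⟩ := h2 (f 1 + (K * B + 2 * C + 1))
  have h3 := (h1 1 x).2
  have h4 : K * wd S (1⁻¹ * x) ≤ K * B := mul_le_mul_of_nonneg_left (by exact_mod_cast h _) (by linarith)
  rw [abs_le] at hx h3
  linarith

theorem ivt {a : ℕ → ℝ} {D t : ℝ} (h : ∀ n, |a n - a (n + 1)| ≤ D) (h0 : a 0 ≤ t) {m : ℕ}
    (hm : t ≤ a m) : ∃ n, |a n - t| ≤ D := by
  induction m with
  | zero => exact ⟨0, by rw [le_antisymm h0 hm]; simpa using (abs_nonneg _).trans (h 0)⟩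
  | succ m ih =>
    rcases le_total t (a m) with h1 | h1
    · exact ih h1
    · have := abs_le.mp (h m)
      exact ⟨m, abs_le.mpr ⟨by linarith, by linarith⟩⟩

theorem two {a b : ℕ → ℝ} {D K C : ℝ} (hK : 1 ≤ K) (ha : ∀ n, |a n - a (n + 1)| ≤ D)
    (hb : ∀ n, |b n - b (n + 1)| ≤ D) (ua : ∀ t, ∃ n, t ≤ a n) (ub : ∀ t, ∃ n, t ≤ b n)
    (h : ∀ n m : ℕ, m / K - C ≤ |a n - b m|) : False := by
  have h1 : ∀ m : ℕ, b m ≤ b 0 + m * D := fun m => by
    induction m with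
    | zero => simp
    | succ m ih => have := abs_le.mp (hb m); push_cast; linarith
  have hD := (abs_nonneg _).trans (ha 0)
  obtain ⟨m, hm⟩ := ub (max (a 0) (b 0 + K * (D + C) * D + 1))
  obtain ⟨k, hk⟩ := ua (b m)
  obtain ⟨n, hn⟩ := ivt ha ((le_max_left _ _).trans hm) hk
  have h2 : (m : ℝ) ≤ K * (D + C) := by
    have := (h n m).trans hn
    rwa [sub_le_iff_le_add, div_le_iff₀' (by linarith)] at this
  nlinarith [(le_max_right _ _).trans hm, h1 m, mul_le_mul_of_nonneg_right h2 hD]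

theorem tripod (p : Fin 3 → ℕ → H) (D : ℕ) (h1 : ∀ i n, wd S ((p i n)⁻¹ * p i (n + 1)) ≤ D)
    (h2 : ∀ i j, i ≠ j → ∀ n m, m ≤ wd S ((p i n)⁻¹ * p j m)) : ¬ QuasiLine S := by
  rintro ⟨f, K, C, hK, hC, h3, -⟩
  have a1 : ∀ i n, |f (p i n) - f (p i (n + 1))| ≤ K * D + C := fun i n => (h3 _ _).2.trans (by
    have : (wd S ((p i n)⁻¹ * p i (n + 1)) : ℝ) ≤ D := by exact_mod_cast h1 i n
    nlinarith)
  have a2 : ∀ i j, i ≠ j → ∀ n m : ℕ, m / K - C ≤ |f (p i n) - f (p j m)| := fun i j h n m =>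
    le_trans (by gcongr; exact_mod_cast h2 i j h n m) (h3 _ _).1
  have a3 : ∀ j, (∀ t, ∃ n, t ≤ f (p j n)) ∨ ∀ t, ∃ n, t ≤ -f (p j n) := fun j => by
    by_contra hc
    push Not at hc
    obtain ⟨⟨s, hs⟩, t, ht⟩ := hc
    obtain ⟨i, hi⟩ := exists_ne j
    obtain ⟨m, hm⟩ := exists_nat_gt (K * (|f (p i 0)| + |s| + |t| + C))
    have b1 := a2 i j hi 0 m
    rw [← lt_div_iff₀' (by linarith)] at hm
    have b2 := abs_le.mp (le_refl |f (p i 0)|)
    have := abs_le.mpr (show -(|f (p i 0)| + |s| + |t|) ≤ f (p i 0) - f (p j m) ∧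
      f (p i 0) - f (p j m) ≤ |f (p i 0)| + |s| + |t| by
        constructor <;> linarith [hs m, ht m, le_abs_self s, le_abs_self t, abs_nonneg s,
          abs_nonneg t])
    linarith
  have u := fun i j h hi hj => two hK (a1 i) (a1 j) hi hj (a2 i j h)
  have v := fun i j h hi hj => two (a := fun n => -f (p i n)) (b := fun n => -f (p j n)) hK
    (fun n => by rw [neg_sub_neg, abs_sub_comm]; exact a1 i n)
    (fun n => by rw [neg_sub_neg, abs_sub_comm]; exact a1 j n) hi hj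
    (fun n m => by rw [neg_sub_neg, abs_sub_comm]; exact a2 i j h n m)
  rcases a3 0 with h0 | h0 <;> rcases a3 1 with h1 | h1 <;> rcases a3 2 with h2 | h2 <;>
    first | exact u 0 1 (by decide) h0 h1 | exact v 0 1 (by decide) h0 h1 |
      exact u 0 2 (by decide) h0 h2 | exact v 0 2 (by decide) h0 h2 |
      exact u 1 2 (by decide) h1 h2 | exact v 1 2 (by decide) h1 h2

end wd

variable {V : Type} {Γ : SimpleGraph V} {G : V → Type} [∀ v, Group (G v)]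

variable (Γ) in
/-- vertex group inclusion -/
def ι (v : V) : G v →* GPr Γ G := (QuotientGroup.mk' _).comp Monoid.CoprodI.of

theorem ι_comm {u v : V} (h : Γ.Adj u v) (a : G u) (b : G v) :
    ι Γ u a * ι Γ v b = ι Γ v b * ι Γ u a := by
  rw [← mul_inv_eq_iff_eq_mul, ← mul_inv_eq_one]
  exact (QuotientGroup.eq_one_iff _).mpr (Subgroup.subset_normalClosure ⟨u, v, a, b, h, rfl⟩)

theorem exists_lift {K : Type} [Group K] (φ : ∀ v, G v →* K)
    (h : ∀ u v, Γ.Adj u v → ∀ a b, φ u a * φ v b = φ v b * φ u a) :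
    ∃ f : GPr Γ G →* K, ∀ v a, f (ι Γ v a) = φ v a :=
  ⟨QuotientGroup.lift _ (Monoid.CoprodI.lift φ) (Subgroup.normalClosure_le_normal (by
    rintro _ ⟨u, v, a, b, h1, rfl⟩
    simp [h u v h1 a b])),
    fun v a => by simp [ι]⟩

variable (Γ) in
/-- evaluation of words -/
def ev (w : List (Σ v, G v)) : GPr Γ G := (w.map fun x => ι Γ x.1 x.2).prod

theorem ev_cons (x : Σ v, G v) (w) : ev Γ (x :: w) = ι Γ x.1 x.2 * ev Γ w := by simp [ev]

theorem ev_append (a b : List (Σ v, G v)) : ev Γ (a ++ b) = ev Γ a * ev Γ b := by simp [ev]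

theorem ev_sh {a b : List (Σ v, G v)} (ha : Red Γ a) (hb : Red Γ b) (h : ev Γ a = ev Γ b) :
    Sh Γ a b := by
  obtain ⟨ψ, hψ⟩ := exists_lift (Γ := Γ) (fun v => (io Γ (M := G) v).toHomUnits)
    fun u v h a b => Units.ext (io_comm h a b)
  have : ∀ w, (ψ (ev Γ w) : GP Γ G) = mk Γ w := fun w => by
    induction w with
    | nil => simp [ev]
    | cons x w ih => rw [ev_cons, map_mul, Units.val_mul, ih, hψ, mk_cons]; rfl
  exact nf_uniq ha hb (by rw [← this, ← this, h])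

theorem Sh_ev {a b : List (Σ v, G v)} (h : Sh Γ a b) : ev Γ a = ev Γ b := by
  induction h with
  | nil => rfl
  | cons x _ ih => rw [ev_cons, ev_cons, ih]
  | swap x y h w => simp only [ev_cons, ← mul_assoc, ι_comm h]
  | trans _ _ i1 i2 => exact i1.trans i2

theorem ev_cs (v : V) (m : G v) (w) : ev Γ (cs v m w) = ι Γ v m * ev Γ w := by
  unfold cs
  split_ifs with h
  · simp [h]
  · exact ev_cons _ _

theorem ev_act (x : Σ v, G v) {w} (hr : Red Γ w) : ev Γ (act Γ x w) = ι Γ x.1 x.2 * ev Γ w := by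
  rw [act, ev_cs, Sh_ev (sh_cs hr x.1), ev_cs, map_mul, mul_assoc]

theorem ι_mem {S : Set V} {z : V} (h : z ∈ S) (m : G z) : ι Γ z m ∈ Sb Γ G S :=
  Subgroup.subset_closure ⟨z, h, m, rfl⟩

theorem Sb_mono {S T : Set V} (h : S ⊆ T) : Sb Γ G S ≤ Sb Γ G T :=
  Subgroup.closure_mono fun _ ⟨u, h1, h2⟩ => ⟨u, h h1, h2⟩

theorem Sb_ind {S : Set V} {p : GPr Γ G → Prop} (h1 : p 1)
    (h2 : ∀ z ∈ S, ∀ m g, p g → p (ι Γ z m * g)) {g} (hg : g ∈ Sb Γ G S) : p g := by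
  induction hg using Subgroup.closure_induction_left with
  | one => exact h1
  | mul_left x hx y _ ih => obtain ⟨z, hz, m, rfl⟩ := hx; exact h2 z hz m y ih
  | inv_mul_cancel x hx y _ ih =>
    obtain ⟨z, hz, m, rfl⟩ := hx
    exact (map_inv (ι Γ z) m) ▸ h2 z hz m⁻¹ y ih

theorem mem_univ (g : GPr Γ G) : g ∈ Sb Γ G Set.univ := by
  obtain ⟨x, rfl⟩ := QuotientGroup.mk'_surjective _ g
  induction x using Monoid.CoprodI.induction_on with
  | one => exact one_mem _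
  | of i m => exact ι_mem (Set.mem_univ i) m
  | mul x y hx hy => exact mul_mem hx hy

theorem ι_gen (v : V) (m : G v) : ι Γ v m ∈ Gen Γ G := Or.inl ⟨v, ι_mem (Set.mem_singleton v) m⟩

theorem gen_all (g : GPr Γ G) : ∃ l : List (GPr Γ G), (∀ s ∈ l, s ∈ Gen Γ G) ∧ l.prod = g :=
  Sb_ind (p := fun g => ∃ l : List (GPr Γ G), (∀ s ∈ l, s ∈ Gen Γ G) ∧ l.prod = g)
    ⟨[], by simp, rfl⟩ (fun z _ m _ ⟨l, h1, h2⟩ => ⟨ι Γ z m :: l, by simpa using ⟨ι_gen z m, h1⟩,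
      by simp [h2]⟩) (mem_univ g)

theorem cone [∀ v, Finite (G v)] (T : Set V) (Z : Finset V) (hZ : ∀ z ∈ Z, ∀ w, w ≠ z → Γ.Adj w z) :
    ∃ F : Set (GPr Γ G), F.Finite ∧ (∀ f ∈ F, f ∈ Sb Γ G Z) ∧
      ∀ g ∈ Sb Γ G (T ∪ Z), ∃ f ∈ F, ∃ y ∈ Sb Γ G T, g = f * y := by
  classical
  induction Z using Finset.induction_on with
  | empty => exact ⟨{1}, by simp, by simp, by simp⟩
  | insert v Z _ ih =>
    obtain ⟨F, h1, h2, h3⟩ := ih fun z hz => hZ z (by simp [hz])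
    refine ⟨Set.image2 (· * ·) (Set.range (ι Γ v)) F, (Set.finite_range _).image2 _ h1, ?_,
      fun g hg => ?_⟩
    · rintro _ ⟨_, ⟨m, rfl⟩, f, hf, rfl⟩
      exact mul_mem (ι_mem (by simp) m) (Sb_mono (by simp) (h2 f hf))
    · obtain ⟨m, a, h4, rfl⟩ : ∃ m, ∃ a ∈ Sb Γ G (T ∪ Z), g = ι Γ v m * a := by
        refine Sb_ind (p := fun g => ∃ m, ∃ a ∈ Sb Γ G (T ∪ Z), g = ι Γ v m * a)
          ⟨1, 1, one_mem _, by simp⟩ ?_ hg
        rintro z hz k _ ⟨m, a, ha, rfl⟩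
        by_cases h : z = v
        · subst h; exact ⟨k * m, a, ha, by rw [map_mul, mul_assoc]⟩
        · exact ⟨m, _, mul_mem (ι_mem (by simpa [h] using hz) k) ha, by
            rw [← mul_assoc, ι_comm (hZ v (by simp) z h), mul_assoc]⟩
      obtain ⟨f, h5, y, h6, rfl⟩ := h3 a h4
      exact ⟨_, ⟨_, ⟨m, rfl⟩, f, h5, rfl⟩, y, h6, (mul_assoc _ _ _).symm⟩

end Pool.Agent.H.MP_7fb950_al
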