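import Pool.Agent.H.MP_7fb950_al.A

set_option autoImplicit false

namespace Pool.Agent.H.MP_7fb950_al

open Pool.Agent.H.MP_96aaf1_al SimpleGraph

variable {V : Type} {Γ : SimpleGraph V} {G : V → Type} [∀ v, Group (G v)]

/-- the word read along a walk of the complement -/
def word (δ : ∀ v, G v) {x y : V} (q : Γᶜ.Walk x y) : List (Σ v, G v) :=
  q.support.map fun v => ⟨v, δ v⟩

theorem hd_c {v : V} {x : Σ v, G v} (h : Γᶜ.Adj x.1 v) (w) : hd Γ v (x :: w) = 1 :=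
  hd_non h.1 h.2 w

theorem red_word {δ : ∀ v, G v} (hδ : ∀ v, δ v ≠ 1) {x y : V} (q : Γᶜ.Walk x y) {w}
    (h : Red Γ (⟨y, δ y⟩ :: w)) : Red Γ (word δ q ++ w) := by
  induction q with
  | nil => exact h
  | cons a q ih =>
    refine ⟨hδ _, ?_, ih h⟩
    rw [Walk.support_eq_cons]
    exact hd_c a.symm _

theorem hd_word (δ : ∀ v, G v) {x y : V} (q : Γᶜ.Walk x y) {z : V} (h : x ≠ z) :
    hd Γ z (word δ q) = 1 := by
  induction q with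
  | nil => simp [word, hd, h]
  | @cons x x' _ a q ih =>
    by_cases h1 : Γ.Adj x z
    · exact (hd_adj (x := ⟨x, δ x⟩) h1 _).trans (ih (by rintro rfl; exact a.2 h1))
    · exact hd_non (x := ⟨x, δ x⟩) h h1 _

theorem tl_app {z : V} {s : List (Σ v, G v)} (h : tl Γ z s = s) (a) :
    tl Γ z (a ++ s) = tl Γ z a ++ s := by
  induction a with
  | nil => simpa using h
  | cons x a ih => simp only [List.cons_append, tl]; split_ifs <;> simp [ih]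

theorem red_suf {a s : List (Σ v, G v)} (h : Red Γ (a ++ s)) : Red Γ s := by
  induction a with
  | nil => exact h
  | cons x a ih => exact ih h.2.2

variable (Γ) in
/-- `s` is a suffix of a reduced word for `g` -/
def Suf (s : List (Σ v, G v)) (g : GPr Γ G) : Prop := ∃ a, Red Γ (a ++ s) ∧ g = ev Γ (a ++ s)

theorem Suf.mul {δ : ∀ v, G v} {x y : V} {q : Γᶜ.Walk x y} {g s : GPr Γ G}
    (h : Suf Γ (word δ q) g) (hs : s ∈ Sb Γ G {x}ᶜ) : Suf Γ (word δ q) (s * g) := by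
  refine Sb_ind (p := fun s => Suf Γ (word δ q) (s * g)) (by simpa) ?_ hs
  rintro z hz m t ⟨a, h1, h2⟩
  have h3 : act Γ ⟨z, m⟩ (a ++ word δ q) =
      cs z (m * hd Γ z (a ++ word δ q)) (tl Γ z a) ++ word δ q := by
    rw [act, tl_app (tl_eq (red_suf h1) (hd_word δ q (Ne.symm hz)))]
    unfold cs; split_ifs <;> rfl
  exact ⟨_, h3 ▸ red_act _ h1, by rw [← h3, ev_act _ h1, mul_assoc, h2]⟩

theorem Suf.app {δ : ∀ v, G v} {x y z : V} {p : Γᶜ.Walk x y} {q : Γᶜ.Walk y z} {g : GPr Γ G}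
    (h : Suf Γ (word δ (p.append q)) g) : Suf Γ (word δ q) g := by
  obtain ⟨a, h⟩ := h
  rw [word, Walk.support_append_eq_support_dropLast_append, List.map_append, ← List.append_assoc] at h
  exact ⟨_, h⟩

/-- powers of a closed walk -/
def pw {b : V} (c : Γᶜ.Walk b b) : ℕ → Γᶜ.Walk b b
  | 0 => .nil
  | n + 1 => c.append (pw c n)

theorem lower {δ : ∀ v, G v} {b : V} {c : Γᶜ.Walk b b}
    (hc : ∀ s ∈ Gen Γ G, ∃ u ∈ c.support, s ∈ Sb Γ G {u}ᶜ) {m : ℕ} {g : GPr Γ G}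
    (h : Suf Γ (word δ (pw c m)) g) : m ≤ wd (Gen Γ G) g := by
  classical
  obtain ⟨l, h1, h2, rfl⟩ := wd_spec gen_all g
  rw [← h1]
  clear h1
  induction l generalizing m with
  | nil =>
    obtain ⟨a, h3, h4⟩ := h
    simpa [word] using (ev_sh (a := []) trivial h3 h4).perm.length_eq.symm
  | cons s l ih =>
    rcases m with _ | m
    · simp
    obtain ⟨u, h3, h4⟩ := hc s (h2 s (by simp))
    rw [pw, ← c.take_spec h3, ← Walk.append_assoc] at h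
    have := (h.app.mul (inv_mem h4)).app
    rw [List.prod_cons, inv_mul_cancel_left, c.take_spec h3] at this
    exact Nat.succ_le_succ (ih (fun t ht => h2 t (by simp [ht])) this)

theorem ev_rev (δ : ∀ v, G v) {x y : V} (q : Γᶜ.Walk x y) :
    ev Γ (word δ⁻¹ q.reverse) = (ev Γ (word δ q))⁻¹ := by
  simp [ev, word, List.prod_inv_reverse, Function.comp_def]

theorem not_ql {δ : ∀ v, G v} (hδ : ∀ v, δ v ≠ 1) {b : V} {c : Γᶜ.Walk b b}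
    (hc : ∀ s ∈ Gen Γ G, ∃ u ∈ c.support, s ∈ Sb Γ G {u}ᶜ) (t : Fin 3 → GPr Γ G)
    (ht : ∀ i j, i ≠ j → ∃ x w, (t i)⁻¹ * t j = ev Γ (x :: w) ∧ Γᶜ.Adj x.1 b ∧
      ∀ s, Red Γ (⟨b, δ b⟩ :: s) → Red Γ (x :: w ++ ⟨b, δ b⟩ :: s)) : ¬ QuasiLine (Gen Γ G) := by
  set W := ev Γ (c.support.dropLast.map fun v => ⟨v, δ v⟩)
  have h1 : ∀ n, ev Γ (word δ (pw c n)) = W ^ n * ι Γ b (δ b) := fun n => by
    induction n with
    | zero => simp [pw, word, ev]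
    | succ n ih =>
      rw [pw, word, Walk.support_append_eq_support_dropLast_append, List.map_append, ev_append,
        pow_succ', mul_assoc, ← ih]; rfl
  refine tripod (fun i n => t i * ev Γ (word δ (pw c n))) (wd (Gen Γ G) ((ι Γ b (δ b))⁻¹ * W *
    ι Γ b (δ b))) (fun i n => le_of_eq (by rw [h1, h1]; congr 1; group)) fun i j h n m => ?_
  obtain ⟨x, w, h2, h3, h4⟩ := ht i j h
  refine lower (δ := δ) hc ⟨word δ⁻¹ (pw c n).reverse ++ x :: w, ?_, ?_⟩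
  · rw [List.append_assoc]
    refine red_word (fun v => inv_ne_one.mpr (hδ v)) _ ⟨inv_ne_one.mpr (hδ b), hd_c h3 _, ?_⟩
    have := red_word hδ (pw c m) (w := []) ⟨hδ b, rfl, trivial⟩
    rw [List.append_nil, word, Walk.support_eq_cons] at this
    rw [word, Walk.support_eq_cons]
    exact h4 _ this
  · rw [ev_append, ev_append, ev_rev, ← h2]; group

theorem minsq {a b : V} (ha : ∃ x, Γᶜ.Adj a x) (hb : ∃ x, Γᶜ.Adj b x) [Finite V]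
    (h : ¬ Γᶜ.Reachable a b) : ∃ Λ, MinSq Γ Λ ∧ ∀ u x, Γᶜ.Adj u x → u ∈ Λ := by
  have sq : ∀ p r x y, Γᶜ.Adj p r → Γᶜ.Adj x y → ¬ Γᶜ.Reachable p x → IsSq Γ p x r y := by
    intro p r x y h1 h2 h3
    have : ∀ u v, ¬ Γᶜ.Reachable u v → Γ.Adj u v := fun u v h => by
      by_contra hc
      exact h (Adj.reachable ⟨fun e => h (e ▸ .rfl), hc⟩)
    exact ⟨this _ _ h3, this _ _ fun e => h3 (h1.reachable.trans e.symm),
      this _ _ fun e => h3 ((h1.reachable.trans e).trans h2.reachable.symm),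
      this _ _ fun e => h3 (e.symm.trans h2.reachable.symm), h1.1, h2.1, h1.2, h2.2⟩
  obtain ⟨a', ha⟩ := ha
  obtain ⟨b', hb⟩ := hb
  obtain ⟨Λ, hΛ⟩ : ∃ Λ, MinSq Γ Λ := exists_minimal_of_wellFoundedLT _
    ⟨Set.univ, by simp, _, _, _, _, sq _ _ _ _ ha hb h, by simp⟩
  refine ⟨Λ, hΛ, fun u x hu => ?_⟩
  obtain ⟨h1, p, q, r, s, h2, hp, -, hr, -⟩ := hΛ.prop
  have h3 : Γᶜ.Adj p r := ⟨h2.2.2.2.2.1, h2.2.2.2.2.2.2.1⟩
  by_cases h4 : Γᶜ.Reachable p u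
  · obtain ⟨y, y', h5, h6⟩ : ∃ y y', Γᶜ.Adj y y' ∧ ¬ Γᶜ.Reachable p y := by
      by_cases h7 : Γᶜ.Reachable p a
      exacts [⟨_, _, hb, fun e => h (h7.symm.trans e)⟩, ⟨_, _, ha, h7⟩]
    have := h1 _ _ _ _ (sq _ _ _ _ h3 h5 h6) hp hr
    exact (h1 _ _ _ _ (sq _ _ _ _ h5 hu fun e => h6 (h4.trans e.symm)) this.1 this.2).1
  · exact (h1 _ _ _ _ (sq _ _ _ _ h3 hu h4) hp hr).1

theorem tour {b : V} (Z : Finset V) (h : ∀ u ∈ Z, Γᶜ.Reachable b u) :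
    ∃ c : Γᶜ.Walk b b, ∀ u ∈ Z, u ∈ c.support := by
  classical
  induction Z using Finset.induction_on with
  | empty => exact ⟨.nil, by simp⟩
  | insert v Z _ ih =>
    obtain ⟨c, hc⟩ := ih fun u hu => h u (by simp [hu])
    obtain ⟨p⟩ := h v (by simp)
    exact ⟨c.append (p.append p.reverse), by simpa using fun u hu => Or.inl (hc u hu)⟩

variable (Γ G) in
/-- the explicit condition -/
def Ex : Prop := ∃ u v, u ≠ v ∧ ¬ Γ.Adj u v ∧ Nat.card (G u) = 2 ∧ Nat.card (G v) = 2 ∧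
  ∀ a b, a ≠ b → ¬ Γ.Adj a b → (a = u ∧ b = v) ∨ (a = v ∧ b = u)

theorem split [∀ v, Nontrivial (G v)] (h : ¬ Ex Γ G) {u v : V} (e : Γᶜ.Adj u v) :
    (∃ a b, Γᶜ.Adj a b ∧ ∃ g g' : G a, g ≠ 1 ∧ g' ≠ 1 ∧ g ≠ g') ∨
      ∃ a b, Γᶜ.Adj a b ∧ a ≠ u ∧ a ≠ v := by
  by_contra hc
  push Not at hc
  have h1 : ∀ a b, Γᶜ.Adj a b → Nat.card (G a) = 2 := fun a b e => by
    obtain ⟨g, hg⟩ := exists_ne (1 : G a)
    exact (Nat.card_eq_two_iff' 1).mpr ⟨g, hg, fun y hy => hc.1 a b e y g hy hg⟩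
  refine h ⟨u, v, e.1, e.2, h1 _ _ e, h1 _ _ e.symm, fun a b h2 h3 => ?_⟩
  have := hc.2 a b ⟨h2, h3⟩
  have := hc.2 b a (Adj.symm ⟨h2, h3⟩)
  grind

theorem cone' [Finite V] [∀ v, Finite (G v)] {T : Set V} (hT : ∀ u x, Γᶜ.Adj u x → u ∈ T) :
    ∃ F : Set (GPr Γ G), F.Finite ∧ (∀ f ∈ F, f ∈ Sb Γ G Tᶜ) ∧
      ∀ g, ∃ f ∈ F, ∃ y ∈ Sb Γ G T, g = f * y := by
  obtain ⟨F, h1, h2, h3⟩ := cone (Γ := Γ) (G := G) T Tᶜ.toFinite.toFinset fun z hz w hw => by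
    by_contra hc
    exact (by simpa using hz : z ∉ T) (hT z w (Adj.symm ⟨hw, hc⟩))
  exact ⟨F, h1, by simpa using h2, fun g => h3 g (by simpa using mem_univ g)⟩

theorem ql_ex [Finite V] [∀ v, Finite (G v)] [∀ v, Nontrivial (G v)] (h : QuasiLine (Gen Γ G)) :
    Ex Γ G := by
  by_contra hE
  have h1 : ∀ T : Set V, (∀ u x, Γᶜ.Adj u x → u ∈ T) → ¬ ∀ y ∈ Sb Γ G T, wd (Gen Γ G) y ≤ 1 :=
    fun T hT hy => by
      obtain ⟨F, a1, -, a2⟩ := cone' (G := G) hT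
      obtain ⟨B, hB⟩ := (a1.image (wd (Gen Γ G))).bddAbove
      refine not_bdd (B := B + 1) (fun g => ?_) h
      obtain ⟨f, a3, y, a4, rfl⟩ := a2 g
      exact (wd_mul gen_all _ _).trans (add_le_add (hB ⟨f, a3, rfl⟩) (hy y a4))
  obtain ⟨u, v, e⟩ : ∃ u v, Γᶜ.Adj u v := by
    by_contra hc
    refine h1 ∅ (fun u x e => hc ⟨u, x, e⟩) fun y hy => ?_
    obtain rfl : y = 1 := by simpa [Sb] using hy
    simpa using wd_pow gen_all (1 : GPr Γ G) 0 |>.trans (by simp)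
  have h2 : ∀ Λ, MinSq Γ Λ → ∃ a x, Γᶜ.Adj a x ∧ a ∉ Λ := fun Λ hΛ => by
    by_contra hc
    push Not at hc
    exact h1 Λ hc fun y hy => wd_one (Or.inr ⟨Λ, hΛ, hy⟩)
  have h3 : ∀ a x b y, Γᶜ.Adj a x → Γᶜ.Adj b y → Γᶜ.Reachable a b := fun a x b y ea eb => by
    by_contra hc
    obtain ⟨Λ, a1, a2⟩ := minsq ⟨x, ea⟩ ⟨y, eb⟩ hc
    obtain ⟨z, z', a3, a4⟩ := h2 Λ a1
    exact a4 (a2 _ _ a3)
  choose δ hδ using fun v => exists_ne (1 : G v)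
  have h4 : ∀ b a, Γᶜ.Adj a b → ∃ c : Γᶜ.Walk b b,
      ∀ s ∈ Gen Γ G, ∃ u ∈ c.support, s ∈ Sb Γ G {u}ᶜ := fun b a e => by
    obtain ⟨c, hc⟩ := tour (Γ := Γ) (b := b) {u | ∃ x, Γᶜ.Adj u x}.toFinite.toFinset
      fun u hu => by
        obtain ⟨x, hx⟩ : ∃ x, Γᶜ.Adj u x := by simpa using hu
        exact h3 _ _ _ _ e.symm hx
    refine ⟨c, ?_⟩
    rintro s (⟨w, hw⟩ | ⟨Λ, a1, a2⟩)
    · by_cases hb : w = b
      · exact ⟨a, hc a (by simpa using ⟨b, e⟩), Sb_mono (by simpa [hb] using e.1) hw⟩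
      · exact ⟨b, c.start_mem_support, Sb_mono (by simpa using Ne.symm hb) hw⟩
    · obtain ⟨z, z', a3, a4⟩ := h2 Λ a1
      exact ⟨z, hc z (by simpa using ⟨z', a3⟩), Sb_mono (by simpa using a4) a2⟩
  have g1 : ∀ {a b : V} (g : G a) (t : GPr Γ G), Γᶜ.Adj a b → g ≠ 1 → t = ι Γ a g →
      ∃ x w, t = ev Γ (x :: w) ∧ Γᶜ.Adj x.1 b ∧
        ∀ s, Red Γ (⟨b, δ b⟩ :: s) → Red Γ (x :: w ++ ⟨b, δ b⟩ :: s) := fun g t e hg ht =>
    ⟨⟨_, g⟩, [], by simp [ht, ev], e, fun s hs => ⟨hg, hd_c e.symm _, hs⟩⟩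
  have g2 : ∀ {a c b : V}, Γᶜ.Adj a b → Γᶜ.Adj c b → a ≠ c →
      ∃ x w, (ι Γ a (δ a))⁻¹ * ι Γ c (δ c) = ev Γ (x :: w) ∧ Γᶜ.Adj x.1 b ∧
        ∀ s, Red Γ (⟨b, δ b⟩ :: s) → Red Γ (x :: w ++ ⟨b, δ b⟩ :: s) := fun {a c b} e e' hn =>
    ⟨⟨a, (δ a)⁻¹⟩, [⟨c, δ c⟩], by simp [ev], e, fun s hs => ⟨inv_ne_one.mpr (hδ a), by
      by_cases h5 : Γ.Adj c a
      · exact (hd_adj (x := ⟨c, δ c⟩) h5 _).trans (hd_c e.symm _)
      · exact hd_non (x := ⟨c, δ c⟩) hn.symm h5 _, hδ c, hd_c e'.symm _, hs⟩⟩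
  rcases split hE e with ⟨a, b, e1, g, g', a1, a2, a3⟩ | ⟨a, b, e1, a1, a2⟩
  · obtain ⟨c, hc⟩ := h4 b a e1
    refine not_ql hδ hc (fun i => ι Γ a (![1, g, g'] i)) (fun i j hij =>
      g1 ((![1, g, g'] i)⁻¹ * ![1, g, g'] j) _ e1 ?_ (by simp)) h
    fin_cases i <;> fin_cases j <;> simp_all [inv_mul_eq_one, eq_comm]
  · obtain ⟨b, a, c, e1, e2, hn⟩ : ∃ b a c, Γᶜ.Adj a b ∧ Γᶜ.Adj c b ∧ a ≠ c := by
      by_contra hc
      push Not at hc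
      have : ∀ z, Γᶜ.Reachable u z → z = u ∨ z = v := fun z hz => by
        rw [reachable_iff_reflTransGen] at hz
        induction hz with
        | refl => exact Or.inl rfl
        | tail _ e' ih =>
          rcases ih with rfl | rfl
          exacts [Or.inr (hc _ _ _ e'.symm e.symm), Or.inl (hc _ _ _ e'.symm e)]
      exact (this a (h3 _ _ _ _ e e1)).elim a1 a2
    obtain ⟨c', hc⟩ := h4 b a e1
    refine not_ql hδ hc ![1, ι Γ a (δ a), ι Γ c (δ c)] (fun i j hij => ?_) h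
    fin_cases i <;> fin_cases j <;> try exact absurd rfl hij
    exacts [g1 (δ a) _ e1 (hδ a) (by simp), g1 (δ c) _ e2 (hδ c) (by simp),
      g1 (δ a)⁻¹ _ e1 (by simp [hδ]) (by simp), g2 e1 e2 hn,
      g1 (δ c)⁻¹ _ e2 (by simp [hδ]) (by simp), g2 e2 e1 hn.symm]

end Pool.Agent.H.MP_7fb950_al
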