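import Pool.Agent.H.MP_7fb950_al.B

set_option autoImplicit false

namespace Pool.Agent.H.MP_7fb950_al

open Pool.Agent.H.MP_96aaf1_al SimpleGraph

variable {V : Type} {Γ : SimpleGraph V} {G : V → Type} [∀ v, Group (G v)]

/-- alternating words -/
def alt (x y : Σ v, G v) : ℕ → List (Σ v, G v)
  | 0 => []
  | n + 1 => x :: y :: alt x y n

theorem ev_alt (x y : Σ v, G v) (n : ℕ) : ev Γ (alt x y n) = (ι Γ x.1 x.2 * ι Γ y.1 y.2) ^ n := by
  induction n with
  | zero => rfl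
  | succ n ih => rw [alt, ev_cons, ev_cons, ih, pow_succ', mul_assoc]

theorem red_alt {x y : Σ v, G v} (e : Γᶜ.Adj x.1 y.1) (hx : x.2 ≠ 1) (hy : y.2 ≠ 1) (n : ℕ) :
    Red Γ (alt x y n) := by
  induction n with
  | zero => trivial
  | succ n ih => exact ⟨hx, hd_c e.symm _, hy, by cases n; exacts [rfl, hd_c e _], ih⟩

theorem hd_alt {x y : Σ v, G v} {u : V} (hx : x.1 ≠ u) (hy : y.1 ≠ u) (n : ℕ) :
    hd Γ u (alt x y n) = 1 := by
  induction n with
  | zero => rfl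
  | succ n ih => simp [alt, hd, hx, hy, ih]

theorem not_vc {u v a b : V} (e : Γᶜ.Adj u v) (e' : Γᶜ.Adj a b) {g : G u} {h : G v} {g' : G a}
    {h' : G b} (hg : g ≠ 1) (hh : h ≠ 1) (hg' : g' ≠ 1) (hh' : h' ≠ 1)
    (h1 : ∀ n, hd Γ u (alt ⟨a, g'⟩ ⟨b, h'⟩ n) ≠ g) (h2 : ∀ n, hd Γ u (alt ⟨b, h'⁻¹⟩ ⟨a, g'⁻¹⟩ n) ≠ g)
    (c : GPr Γ G) : ¬ (Subgroup.zpowers c).FiniteIndex := by
  intro hc
  set α := ι Γ u g * ι Γ v h
  set β := ι Γ a g' * ι Γ b h'
  have k1 : ∀ (m : ℕ) (j : ℤ), α ^ (m + 1) ≠ β ^ j := fun m j hj => by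
    have r := red_alt (x := ⟨u, g⟩) (y := ⟨v, h⟩) e hg hh (m + 1)
    obtain ⟨n, rfl | rfl⟩ := j.eq_nat_or_neg
    · refine h1 n ?_
      rw [← (ev_sh r (red_alt (x := ⟨a, g'⟩) (y := ⟨b, h'⟩) e' hg' hh' n)
        (by rw [ev_alt, ev_alt, hj, zpow_natCast])).hd_eq, alt, hd_same]
    · refine h2 n ?_
      rw [← (ev_sh r (red_alt (x := ⟨b, h'⁻¹⟩) (y := ⟨a, g'⁻¹⟩) e'.symm (by simpa) (by simpa) n)
        (by rw [ev_alt, ev_alt, hj, zpow_neg, zpow_natCast, ← inv_pow]; simp [β])).hd_eq, alt,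
        hd_same]
  have k2 : ∀ i j : ℤ, α ^ i = β ^ j → i = 0 := fun i j hj => by
    rcases i with (_ | m) | m
    · rfl
    · exact (k1 m j (by rw [← hj, ← zpow_natCast]; rfl)).elim
    · exact (k1 m (-j) (by rw [zpow_neg, ← hj, zpow_negSucc, inv_inv])).elim
  obtain ⟨k, hk, -, p, hp⟩ := (Subgroup.zpowers c).exists_pow_mem_of_index_ne_zero hc.1 α
  obtain ⟨l, hl, -, q, hq⟩ := (Subgroup.zpowers c).exists_pow_mem_of_index_ne_zero hc.1 β
  have k3 := k2 (k * q) (l * p) (by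
    simp only [zpow_mul, zpow_natCast, ← hp, ← hq]; rw [← zpow_mul, ← zpow_mul, mul_comm])
  obtain rfl : q = 0 := by simpa [hk.ne'] using k3
  obtain ⟨l, rfl⟩ := Nat.exists_eq_succ_of_ne_zero hl.ne'
  simpa [alt] using (ev_sh (a := []) trivial (red_alt (x := ⟨a, g'⟩) (y := ⟨b, h'⟩) e' hg' hh'
    (l + 1)) (by rw [ev_alt]; simpa [ev] using hq)).perm.length_eq

theorem vc_ex [Finite V] [∀ v, Finite (G v)] [∀ v, Nontrivial (G v)] (hI : Infinite (GPr Γ G))
    {c : GPr Γ G} (hc : (Subgroup.zpowers c).FiniteIndex) : Ex Γ G := by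
  by_contra hE
  obtain ⟨u, v, e⟩ : ∃ u v, Γᶜ.Adj u v := by
    by_contra h
    obtain ⟨F, a1, -, a2⟩ := cone' (G := G) (T := ∅) fun u x e => h ⟨u, x, e⟩
    refine Set.infinite_univ (a1.subset fun g _ => ?_)
    obtain ⟨f, a3, y, a4, rfl⟩ := a2 g
    obtain rfl : y = 1 := by simpa [Sb] using a4
    simpa
  choose δ hδ using fun v => exists_ne (1 : G v)
  rcases split hE e with ⟨a, b, e1, g, g', a1, a2, a3⟩ | ⟨a, b, e1, a1, a2⟩
  · refine not_vc e1 e1 a1 (hδ b) a2 (hδ b) ?_ ?_ c hc <;> rintro (_ | n)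
    exacts [a1.symm, by rw [alt, hd_same]; exact a3.symm, a1.symm, by
      rw [alt, hd_c e1.symm]; exact a1.symm]
  · exact not_vc e1 e (hδ a) (hδ b) (hδ u) (hδ v)
      (fun n => by rw [hd_alt a1.symm a2.symm]; exact (hδ a).symm)
      (fun n => by rw [hd_alt a2.symm a1.symm]; exact (hδ a).symm) c hc

theorem ex_all [Finite V] [∀ v, Finite (G v)] (h : Ex Γ G) : QuasiLine (Gen Γ G) ∧
    Infinite (GPr Γ G) ∧ ∃ c : GPr Γ G, (Subgroup.zpowers c).FiniteIndex := by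
  classical
  obtain ⟨u, v, h1, h2, h3, h4, h5⟩ := h
  obtain ⟨α, hα, hα'⟩ := (Nat.card_eq_two_iff' 1).mp h3
  obtain ⟨β, hβ, hβ'⟩ := (Nat.card_eq_two_iff' 1).mp h4
  let r : V → Equiv.Perm ℤ := fun w =>
    if w = u then Equiv.subLeft (-1) else if w = v then Equiv.subLeft 1 else 1
  have r2 : ∀ w, r w * r w = 1 := fun w => by
    ext x; simp only [r]; split_ifs <;> simp
  have two : ∀ w, r w ≠ 1 → ∀ a b : G w, a ≠ 1 → b ≠ 1 → a = b := fun w hw a b ha hb => by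
    by_cases e : w = u
    · subst e; exact (hα' a ha).trans (hα' b hb).symm
    by_cases e' : w = v
    · subst e'; exact (hβ' a ha).trans (hβ' b hb).symm
    simp [r, e, e'] at hw
  obtain ⟨φ, hφ⟩ := exists_lift (Γ := Γ) (G := G) (fun w => MonoidHom.mk'
    (fun a => if a = 1 then 1 else r w) fun a b => by
      by_cases hw : r w = 1
      · simp [hw]
      by_cases ha : a = 1
      · simp [ha]
      by_cases hb : b = 1
      · simp [hb]
      rw [if_neg ha, if_neg hb, r2, if_pos (by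
        rw [two w hw a b⁻¹ ha (inv_ne_one.mpr hb), inv_mul_cancel])]) fun w w' e a b => by
      have : r w = 1 ∨ r w' = 1 ∨ w = w' := by
        have e' := e.symm
        simp only [r]; split_ifs <;> simp_all
      rcases this with h | h | rfl
      · simp [h]
      · simp [h]
      · exact (Γ.irrefl e).elim
  simp only [MonoidHom.mk'_apply] at hφ
  have iso : ∀ g a b, |φ g a - φ g b| = |a - b| := fun g => Sb_ind
    (p := fun g => ∀ a b, |φ g a - φ g b| = |a - b|) (by simp) (fun z _ m g ih a b => by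
      rw [map_mul, hφ, ← ih a b]
      simp only [r]; split_ifs <;> simp [abs_sub_comm]) (mem_univ g)
  have gen : ∀ s ∈ Gen Γ G, |φ s 0| ≤ 1 := by
    rintro s (⟨w, hw⟩ | ⟨Λ, h, -⟩)
    · obtain ⟨m, rfl⟩ : ∃ m, s = ι Γ w m := Sb_ind (p := fun s => ∃ m, s = ι Γ w m) ⟨1, by simp⟩
        (by rintro _ rfl m _ ⟨k, rfl⟩; exact ⟨_, (map_mul _ _ _).symm⟩) hw
      rw [hφ]
      simp only [r]; split_ifs <;> simp
    · obtain ⟨-, a, b, c, d, ⟨a1, a2, a3, a4, a5, a6, a7, a8⟩, -⟩ := h.prop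
      rcases h5 _ _ a5 a7 with ⟨rfl, rfl⟩ | ⟨rfl, rfl⟩ <;>
        rcases h5 _ _ a6 a8 with ⟨rfl, rfl⟩ | ⟨rfl, rfl⟩ <;> simp_all
  have up : ∀ g, |φ g 0| ≤ wd (Gen Γ G) g := fun g => by
    obtain ⟨l, a1, a2, rfl⟩ := wd_spec gen_all g
    rw [← a1]
    clear a1
    induction l with
    | nil => simp
    | cons s l ih =>
      have b1 := iso s (φ l.prod 0) 0
      have b2 := gen s (a2 s (by simp))
      have b3 := ih fun t ht => a2 t (by simp [ht])
      have b4 := abs_sub_abs_le_abs_sub (φ s (φ l.prod 0)) (φ s 0)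
      simp only [List.prod_cons, map_mul, Equiv.Perm.mul_apply, List.length_cons, sub_zero] at *
      push_cast; linarith
  set A := ι Γ u α
  set B := ι Γ v β
  have A2 : A * A = 1 := by
    rw [← map_mul, mul_eq_one_iff_inv_eq.mpr (hα' _ (inv_ne_one.mpr hα)), map_one]
  have B2 : B * B = 1 := by
    rw [← map_mul, mul_eq_one_iff_inv_eq.mpr (hβ' _ (inv_ne_one.mpr hβ)), map_one]
  have hA : ∀ k : ℤ, A * (A * B) ^ k = (A * B) ^ (-k) * A := fun k => by
    rw [zpow_neg, ← inv_zpow, eq_comm, ← eq_mul_inv_iff_mul_eq, ← conj_zpow, mul_inv_rev,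
      ← mul_assoc, A2, one_mul, inv_eq_of_mul_eq_one_left B2]
  have dih : ∀ y ∈ Sb Γ G {u, v}, ∃ k : ℤ, ∃ e ∈ ({1, A} : Set _), y = e * (A * B) ^ k :=
    fun y hy => by
    refine Sb_ind (p := fun y => ∃ k : ℤ, ∃ e ∈ ({1, A} : Set _), y = e * (A * B) ^ k)
      ⟨0, 1, by simp, by simp⟩ ?_ hy
    rintro z hz m _ ⟨k, e, he, rfl⟩
    by_cases hm : m = 1
    · exact ⟨k, e, he, by simp [hm]⟩
    rcases hz with rfl | rfl <;> rcases he with rfl | rfl
    · exact ⟨k, A, by simp, by rw [hα' m hm, one_mul]⟩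
    · exact ⟨k, 1, by simp, by rw [hα' m hm, ← mul_assoc, A2]⟩
    · exact ⟨k + 1, A, by simp, by
        rw [hβ' m hm, one_mul, zpow_add, ← zpow_add, add_comm, zpow_add, zpow_one, ← mul_assoc,
          ← mul_assoc, A2, one_mul]⟩
    · exact ⟨k - 1, 1, by simp, by
        rw [hβ' m hm, one_mul, sub_eq_neg_add, zpow_add, zpow_neg_one, mul_inv_rev,
          inv_eq_of_mul_eq_one_left B2, inv_eq_of_mul_eq_one_left A2, mul_assoc]⟩
  have φA : φ A = Equiv.subLeft (-1) := by simp [A, hφ, hα, r]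
  have φτ : ∀ k : ℤ, φ ((A * B) ^ k) 0 = -2 * k := fun k => by
    have : φ (A * B) = Equiv.addRight (-2) := by
      ext x; simp [φA, B, hφ, hβ, r, h1.symm]; ring
    rw [map_zpow, this]; simp [mul_comm]
  obtain ⟨F, f1, f2, f3⟩ := cone' (G := G) (Γ := Γ) (T := {u, v}) fun a b e => by
    rcases h5 a b e.1 e.2 with ⟨rfl, -⟩ | ⟨rfl, -⟩ <;> simp
  have φF : ∀ f ∈ F, φ f = 1 := fun f hf => Sb_ind (p := fun f => φ f = 1) (map_one φ)
    (fun z hz m g ih => by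
      simp only [Set.mem_compl_iff, Set.mem_insert_iff, Set.mem_singleton_iff, not_or] at hz
      simp [hφ, ih, r, hz]) (f2 f hf)
  obtain ⟨D, hD⟩ := (f1.image (wd (Gen Γ G))).bddAbove
  have low : ∀ g, (wd (Gen Γ G) g : ℤ) ≤ |φ g 0| + (D + 2) := fun g => by
    obtain ⟨f, a1, y, a2, rfl⟩ := f3 g
    obtain ⟨k, e, a3, rfl⟩ := dih y a2
    have b1 : wd (Gen Γ G) ((A * B) ^ k) ≤ k.natAbs * 2 := by
      obtain ⟨n, rfl | rfl⟩ := k.eq_nat_or_neg
      · rw [zpow_natCast, Int.natAbs_natCast]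
        exact (wd_pow gen_all _ n).trans (Nat.mul_le_mul_left _ ((wd_mul gen_all _ _).trans
          (add_le_add (wd_one (ι_gen _ _)) (wd_one (ι_gen _ _)))))
      · rw [zpow_neg, zpow_natCast, ← inv_pow, mul_inv_rev, Int.natAbs_neg, Int.natAbs_natCast,
          ← map_inv, ← map_inv]
        exact (wd_pow gen_all _ n).trans (Nat.mul_le_mul_left _ ((wd_mul gen_all _ _).trans
          (add_le_add (wd_one (ι_gen _ _)) (wd_one (ι_gen _ _)))))
    have b2 : wd (Gen Γ G) e ≤ 1 := by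
      rcases a3 with rfl | rfl
      exacts [by simpa using wd_one (ι_gen (Γ := Γ) (G := G) u 1), wd_one (ι_gen _ _)]
    have b3 := wd_mul gen_all f (e * (A * B) ^ k)
    have b4 := wd_mul gen_all e ((A * B) ^ k)
    have b5 : wd (Gen Γ G) f ≤ D := hD ⟨f, a1, rfl⟩
    rw [map_mul, map_mul, φF f a1, one_mul, Equiv.Perm.mul_apply, φτ, Int.abs_eq_natAbs]
    rcases a3 with rfl | rfl
    · rw [map_one, Equiv.Perm.one_apply]; omega
    · rw [φA, Equiv.subLeft_apply]; omega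
  refine ⟨⟨fun g => φ g 0, 1, D + 2, le_rfl, by positivity, fun x y => ?_, fun t =>
    ⟨(A * B) ^ (-⌊t / 2⌋), ?_⟩⟩, Infinite.of_injective (fun k : ℤ => (A * B) ^ k) fun k l h => by
      have := congrArg (φ · 0) h
      simpa [φτ, -map_zpow] using this, A * B, ?_⟩
  · have b1 := iso x⁻¹ (φ y 0) (φ x 0)
    simp only [← Equiv.Perm.mul_apply, ← map_mul, inv_mul_cancel, map_one, Equiv.Perm.one_apply,
      sub_zero] at b1
    have b2 := low (x⁻¹ * y)
    have b3 := up (x⁻¹ * y)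
    rw [b1, abs_sub_comm] at b2 b3
    rw [div_one, one_mul]
    beta_reduce
    constructor
    · rw [sub_le_iff_le_add]; exact_mod_cast b2
    · exact_mod_cast (by omega : |φ x 0 - φ y 0| ≤ wd (Gen Γ G) (x⁻¹ * y) + (D + 2))
  · have b1 := Int.floor_le (t / 2)
    have b2 := Int.lt_floor_add_one (t / 2)
    have b3 : (0 : ℝ) ≤ D := by positivity
    simp only [φτ]
    push_cast
    exact abs_le.mpr ⟨by linarith, by linarith⟩
  · have : Finite (GPr Γ G ⧸ Subgroup.zpowers (A * B)) := by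
      refine Set.finite_univ_iff.mp (((f1.image2 (· * ·) (Set.toFinite {1, A})).image
        QuotientGroup.mk).subset fun z _ => ?_)
      obtain ⟨g, rfl⟩ := QuotientGroup.mk_surjective z
      obtain ⟨f, a1, y, a2, rfl⟩ := f3 g
      obtain ⟨k, e, a3, rfl⟩ := dih y a2
      exact ⟨_, ⟨f, a1, e, a3, rfl⟩, by
        rw [← mul_assoc, QuotientGroup.mk_mul_of_mem _ (Subgroup.zpow_mem_zpowers _ _)]⟩
    exact Subgroup.finiteIndex_of_finite_quotient

end Pool.Agent.H.MP_7fb950_al
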