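import Mathlib

set_option autoImplicit false

namespace Pool.Agent.H.MP_7fb950_al

variable {V : Type} (Γ : SimpleGraph V) (G : V → Type) [∀ v, Group (G v)]

/-- The normal closure of the commutators of elements of adjacent vertex groups. -/
def Rel : Subgroup (Monoid.CoprodI G) := Subgroup.normalClosure
  {x : Monoid.CoprodI G | ∃ (u v : V) (g : G u) (h : G v), Γ.Adj u v ∧
    x = .of g * .of h * (Monoid.CoprodI.of g)⁻¹ * (Monoid.CoprodI.of h)⁻¹}

instance relNormal : (Rel Γ G).Normal := Subgroup.normalClosure_normal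

/-- The graph product: the free product of the vertex groups modulo the commutators of elements of
adjacent vertex groups. -/
abbrev GPr : Type := Monoid.CoprodI G ⧸ Rel Γ G

/-- `⟨Λ⟩`: the subgroup generated by the vertex groups `G u`, `u ∈ Λ`. -/
def Sb (Λ : Set V) : Subgroup (GPr Γ G) :=
  Subgroup.closure {x | ∃ u ∈ Λ, ∃ g : G u, x = QuotientGroup.mk (Monoid.CoprodI.of g)}

/-- `a, b, c, d` (in cyclic order) is an induced square. -/
def IsSq (a b c d : V) : Prop :=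
  Γ.Adj a b ∧ Γ.Adj b c ∧ Γ.Adj c d ∧ Γ.Adj d a ∧ a ≠ c ∧ b ≠ d ∧ ¬ Γ.Adj a c ∧ ¬ Γ.Adj b d

/-- Minsquare subgraphs: minimal among square-complete subgraphs containing an induced square. -/
def MinSq (Λ : Set V) : Prop :=
  Minimal (fun Λ : Set V => (∀ a b c d, IsSq Γ a b c d → a ∈ Λ → c ∈ Λ → b ∈ Λ ∧ d ∈ Λ) ∧
    ∃ a b c d, IsSq Γ a b c d ∧ a ∈ Λ ∧ b ∈ Λ ∧ c ∈ Λ ∧ d ∈ Λ) Λ

/-- The generating set of the electrification. -/
def Gen : Set (GPr Γ G) := {x | (∃ u, x ∈ Sb Γ G {u}) ∨ ∃ Λ, MinSq Γ Λ ∧ x ∈ Sb Γ G Λ}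

/-- Word length with respect to a generating set `S`. -/
noncomputable def wd {H : Type} [Group H] (S : Set H) (g : H) : ℕ :=
  sInf {n | ∃ l : List H, l.length = n ∧ (∀ s ∈ l, s ∈ S) ∧ l.prod = g}

/-- The Cayley graph of `H` for `S`, with its path metric `d(x,y) = wd S (x⁻¹ y)`, is
quasi-isometric to `ℝ`. -/
def QuasiLine {H : Type} [Group H] (S : Set H) : Prop :=
  ∃ (f : H → ℝ) (K C : ℝ), 1 ≤ K ∧ 0 ≤ C ∧
    (∀ x y, wd S (x⁻¹ * y) / K - C ≤ |f x - f y| ∧ |f x - f y| ≤ K * wd S (x⁻¹ * y) + C) ∧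
    ∀ t, ∃ x, |f x - t| ≤ C

end Pool.Agent.H.MP_7fb950_al
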